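import Pool.Agent.R531.Sx.Mach
set_option autoImplicit false

/-!
# Rules with few memory states and random start vertices
-/

namespace Pool.Agent.R531.Sx

open Finset Pool.Agent.TH70.AR

variable {n b M : ℕ}

/-- any `m` rules with full memory on the `b`-cube are slow at once on one function -/
def Port (b k m : ℕ) : Prop :=
  ∀ (R : Fin m → Past b → Fin b) (y : Fin m → (Fin b → Bool)), (∀ j, Valid (R j)) →
    ∃ g : (Fin b → Bool) → ℕ, Function.Injective g ∧ AOF g ∧ ∀ j : Fin m,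
      ∃ w : ℕ → (Fin b → Bool), w 0 = y j ∧ ∀ t < 2 ^ k, (improving g (w t)).Nonempty ∧
        w (t + 1) = TH70.AR.flip (w t) (R j (seen g w t))

lemma port_one {b k : ℕ} (hk : 1 ≤ k) (hb : 12000 * k ^ 2 * (Nat.log 2 k + 1) ^ 3 ≤ b) :
    Port b k 1 := by
  intro R y hR
  obtain ⟨g, h1, h2, L, w, h3, h4, -, h5⟩ := R617.SR.slow_sqrt hk hb (R 0) (hR 0) (y 0)
  refine ⟨g, h1, h2, fun j => ?_⟩
  rw [Fin.fin_one_eq_zero j]
  exact ⟨w, h3, fun t ht => h4 t (by omega)⟩

lemma port_many {b k m : ℕ} (hm : 1 ≤ m)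
    (hb : 2 * (k * (k + 1) * (3 * k + 28)) + (3 * k + 18) * m ≤ b) : Port b k m := by
  obtain ⟨J, rfl⟩ : ∃ J, m = J + 1 := ⟨m - 1, by omega⟩
  intro R y hR
  obtain ⟨g, h1, h2, h3⟩ := JP.portfolio (k := k) (J := J) (by
    have h1 : 3 * k + 18 = 3 * (k + 6) := by ring
    rw [h1] at hb
    exact hb) R hR y
  refine ⟨g, h1, h2, fun j => ?_⟩
  obtain ⟨L, w, h4, h5, -, h6⟩ := h3 j
  exact ⟨w, h4, fun t ht => h5 t (by omega)⟩

/-- some `b` of the numbers have at most their share -/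
lemma exists_light {ι : Type*} [Fintype ι] [DecidableEq ι] (c : ι → ℝ) (d : ℕ) :
    ∀ b : ℕ, b + d = Fintype.card ι → ∃ B : Finset ι, B.card = b ∧
      (Fintype.card ι : ℝ) * ∑ i ∈ B, c i ≤ b * ∑ i, c i := by
  induction d with
  | zero =>
    intro b hb
    refine ⟨univ, by rw [card_univ]; omega, ?_⟩
    have : b = Fintype.card ι := by omega
    rw [this]
  | succ d ih =>
    intro b hb
    obtain ⟨B, hB, h⟩ := ih (b + 1) (by omega)
    have hne : B.Nonempty := by rw [← card_pos]; omega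
    obtain ⟨i, hi, hmax⟩ := exists_max_image B c hne
    refine ⟨B.erase i, by rw [card_erase_of_mem hi]; omega, ?_⟩
    have h1 : ∑ j ∈ B, c j ≤ (b + 1 : ℕ) * c i := by
      rw [← hB, ← nsmul_eq_mul]
      exact sum_le_card_nsmul _ _ _ hmax
    have h2 : ∑ j ∈ B.erase i, c j = ∑ j ∈ B, c j - c i := by
      rw [← add_sum_erase _ _ hi]; ring
    rw [h2]
    push_cast at h1 h
    have h3 : (0 : ℝ) ≤ (Fintype.card ι : ℝ) := by positivity
    have h4 : ((b : ℝ) + 1) * ((Fintype.card ι : ℝ) * (∑ j ∈ B, c j - c i)) ≤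
        ((b : ℝ) + 1) * (b * ∑ i, c i) := by
      have h5 : ((b : ℝ) + 1) * ((Fintype.card ι : ℝ) * (∑ j ∈ B, c j - c i)) =
          (Fintype.card ι : ℝ) * (b * ∑ j ∈ B, c j) +
            (Fintype.card ι : ℝ) * (∑ j ∈ B, c j - (b + 1) * c i) := by ring
      have h6 : (Fintype.card ι : ℝ) * (∑ j ∈ B, c j - (b + 1) * c i) ≤ 0 :=
        mul_nonpos_of_nonneg_of_nonpos h3 (by linarith)
      have h7 : (Fintype.card ι : ℝ) * (b * ∑ j ∈ B, c j) ≤ b * ((b + 1) * ∑ i, c i) := by
        calc (Fintype.card ι : ℝ) * (b * ∑ j ∈ B, c j)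
            = b * ((Fintype.card ι : ℝ) * ∑ j ∈ B, c j) := by ring
          _ ≤ _ := mul_le_mul_of_nonneg_left h (by positivity)
      calc ((b : ℝ) + 1) * ((Fintype.card ι : ℝ) * (∑ j ∈ B, c j - c i))
          ≤ b * ((b + 1) * ∑ i, c i) := by rw [h5]; linarith
        _ = _ := by ring
    exact le_of_mul_le_mul_left h4 (by positivity)

lemma sum_fib {α ι : Type*} [DecidableEq ι] (S : Finset α) (φ : α → ι) (B : Finset ι)
    (μ : α → ℝ) : ∑ i ∈ B, ∑ s ∈ S.filter (fun s => φ s = i), μ s =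
      ∑ s ∈ S.filter (fun s => φ s ∈ B), μ s := by
  simp only [sum_filter]
  rw [sum_comm]
  refine sum_congr rfl fun s _ => ?_
  rw [sum_ite_eq]

/-- every run ends -/
lemma run_ends {R : MRule n M} (hR : MValid R) (f : (Fin n → Bool) → ℕ)
    (s : (Fin n → Bool) × Fin M) : ∃ t, improving f (mrun R f s t).1 = ∅ := by
  by_contra hne
  push Not at hne
  have h1 : StrictMono fun t => f (mrun R f s t).1 := strictMono_nat_of_lt_succ fun t => by
    have h2 := hR (mrun R f s t).2 (mrun R f s t).1 (f (mrun R f s t).1)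
      (improving f (mrun R f s t).1) (hne t)
    have h3 : (R (mrun R f s t).2 (view f (mrun R f s t).1)).1 ∈ improving f (mrun R f s t).1 := h2
    rw [improving, mem_filter] at h3
    exact h3.2
  have h2 := h1.injective
  have h3 : Function.Injective fun t => (mrun R f s t).1 := fun s t h => h2 (by simp only at h ⊢; rw [h])
  exact not_injective_infinite_finite _ h3

/-- **Main theorem.** -/
theorem main {n b k m M : ℕ} (hb0 : 0 < b) (hb : b ≤ n) (hm : m ≤ M) (hP : Port b k m)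
    (R : MRule n M) (hR : MValid R) (μ : (Fin n → Bool) × Fin M → ℝ) (hμ : ∀ s, 0 ≤ μ s)
    (hμ1 : ∑ s, μ s = 1) :
    ∃ f : (Fin n → Bool) → ℕ, Function.Injective f ∧ AOF f ∧
      ∃ T : (Fin n → Bool) × Fin M → ℕ,
        (∀ s, improving f (mrun R f s (T s)).1 = ∅ ∧
          ∀ t < T s, (improving f (mrun R f s t).1).Nonempty) ∧
        (m : ℝ) / M * (1 - b / n) * (1 - (1 / 2) ^ n) ≤ ∑ s with 2 ^ k ≤ T s, μ s := by
  classical
  have hn0 : 0 < n := by omega
  -- the target of the funnel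
  obtain ⟨v, hv⟩ : ∃ v : Fin n → Bool, ∑ q, μ (v, q) ≤ (1 / 2) ^ n := by
    by_contra hne
    push Not at hne
    have h1 : ∑ v : Fin n → Bool, (1 / 2 : ℝ) ^ n < ∑ v : Fin n → Bool, ∑ q, μ (v, q) :=
      sum_lt_sum_of_nonempty univ_nonempty fun v _ => hne v
    rw [← Fintype.sum_prod_type', hμ1, sum_const, card_univ, nsmul_eq_mul] at h1
    have h2 : ((Fintype.card (Fin n → Bool) : ℕ) : ℝ) * (1 / 2 : ℝ) ^ n = 1 := by
      rw [Fintype.card_fun, Fintype.card_bool, Fintype.card_fin]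
      push_cast
      rw [← mul_pow]
      norm_num
    linarith
  set S0 : Finset ((Fin n → Bool) × Fin M) := univ.filter fun s => s.1 ≠ v with hS0
  have hp1 : 1 - (1 / 2) ^ n ≤ ∑ s ∈ S0, μ s := by
    have h1 := sum_filter_add_sum_filter_not univ (fun s : (Fin n → Bool) × Fin M => s.1 ≠ v) μ
    rw [hμ1] at h1
    have h2 : ∑ s ∈ univ.filter (fun s : (Fin n → Bool) × Fin M => ¬ s.1 ≠ v), μ s =
        ∑ q, μ (v, q) := by
      have h3 := sum_map univ ⟨fun q : Fin M => (v, q), fun _ _ h => (Prod.mk.inj h).2⟩ μ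
      refine Eq.trans (sum_congr ?_ fun _ _ => rfl) h3
      ext ⟨x, q⟩
      rw [mem_filter, mem_map]
      constructor
      · rintro ⟨-, h⟩
        rw [not_not] at h
        exact ⟨q, mem_univ _, by rw [← h]; rfl⟩
      · rintro ⟨a, -, h⟩
        refine ⟨mem_univ _, ?_⟩
        rw [not_not, ← h]
        rfl
    rw [h2] at h1
    rw [hS0]
    linarith
  have hnn : ∀ S : Finset ((Fin n → Bool) × Fin M), 0 ≤ ∑ s ∈ S, μ s := fun S =>
    sum_nonneg fun s _ => hμ s
  -- the small cube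
  obtain ⟨B, hBc, hB⟩ := exists_light (fun i : Fin n => ∑ s ∈ S0.filter (fun s => lastd R v s = i), μ s)
    (n - b) b (by rw [Fintype.card_fin]; omega)
  rw [sum_fib, sum_fib, Fintype.card_fin] at hB
  have hall : S0.filter (fun s => lastd R v s ∈ (univ : Finset (Fin n))) = S0 :=
    filter_true_of_mem fun s _ => mem_univ _
  rw [hall] at hB
  set e : Fin b ↪ Fin n := (B.orderEmbOfFin hBc).toEmbedding with he
  have hoff : off e = Bᶜ := by
    rw [off]
    congr 1
    ext i
    rw [mem_map]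
    constructor
    · rintro ⟨j, _, rfl⟩
      exact orderEmbOfFin_mem B hBc j
    · intro hi
      have h1 := range_orderEmbOfFin B hBc
      have h2 : i ∈ Set.range (B.orderEmbOfFin hBc) := by rw [h1]; exact hi
      obtain ⟨j, hj⟩ := h2
      exact ⟨j, mem_univ _, hj⟩
  set S1 := S0.filter fun s => lastd R v s ∈ off e with hS1
  have hp2 : (1 - b / n) * ∑ s ∈ S0, μ s ≤ ∑ s ∈ S1, μ s := by
    have h1 := sum_filter_add_sum_filter_not S0 (fun s => lastd R v s ∈ B) μ
    have h2 : S0.filter (fun s => ¬ lastd R v s ∈ B) = S1 := by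
      rw [hS1]
      refine filter_congr fun s _ => ?_
      rw [hoff, mem_compl]
    rw [h2] at h1
    have h3 : (0 : ℝ) < n := by exact_mod_cast hn0
    have h4 : ∑ s ∈ S0.filter (fun s => lastd R v s ∈ B), μ s ≤ b / n * ∑ s ∈ S0, μ s := by
      rw [div_mul_eq_mul_div, le_div_iff₀ h3]
      linarith
    linarith
  -- the memory states
  obtain ⟨Q, hQc, hQ⟩ := exists_light
    (fun q : Fin M => - ∑ s ∈ S1.filter (fun s => arr R v s = q), μ s)
    (M - m) m (by rw [Fintype.card_fin]; omega)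
  rw [sum_neg_distrib, sum_neg_distrib, sum_fib, sum_fib, Fintype.card_fin] at hQ
  have hall2 : S1.filter (fun s => arr R v s ∈ (univ : Finset (Fin M))) = S1 :=
    filter_true_of_mem fun s _ => mem_univ _
  rw [hall2] at hQ
  set S2 := S1.filter fun s => arr R v s ∈ Q with hS2
  have hp3 : (m : ℝ) / M * ∑ s ∈ S1, μ s ≤ ∑ s ∈ S2, μ s := by
    rcases Nat.eq_zero_or_pos M with hM | hM
    · subst hM
      simp only [Nat.cast_zero, div_zero, zero_mul]
      exact hnn _
    · have h3 : (0 : ℝ) < M := by exact_mod_cast hM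
      rw [div_mul_eq_mul_div, div_le_iff₀ h3]
      linarith
  -- the function
  obtain ⟨g, hg1, hg2, hg3⟩ := hP (fun j => sim R e v hb0 (Q.orderEmbOfFin hQc j))
    (fun _ l => v (e l)) (fun j x c S l hS => (sim_spec hR v e hb0 _ x c S l hS).1)
  have hstart : up e v (fun l => v (e l)) = v := up_res e v fun _ _ => rfl
  have hslow : ∀ s ∈ S2, ∀ t < 2 ^ k,
      (improving (big e v g) (mrun R (big e v g) s t).1).Nonempty := by
    intro s hs t ht
    rw [hS2, mem_filter, hS1, mem_filter, hS0, mem_filter] at hs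
    obtain ⟨⟨⟨-, hs1⟩, hs2⟩, hs3⟩ := hs
    rcases lt_or_ge t (dis s.1 v).card with h1 | h1
    · exact improving_way hR v e g s hs2 t h1
    · obtain ⟨d, rfl⟩ : ∃ d, t = (dis s.1 v).card + d := ⟨_, (Nat.add_sub_cancel' h1).symm⟩
      rw [mrun_add, run_big hR v e g s hs2 _ le_rfl]
      have h2 := range_orderEmbOfFin Q hQc
      have h3 : arr R v s ∈ Set.range (Q.orderEmbOfFin hQc) := by rw [h2]; exact hs3
      obtain ⟨j, hj⟩ := h3
      obtain ⟨w, hw0, hw⟩ := hg3 j
      have h4 : mrun R (fun0 v) s (dis s.1 v).card = (up e v (w 0), Q.orderEmbOfFin hQc j) := by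
        rw [hw0, hj]
        exact Prod.ext ((funnel_end hR v s).trans hstart.symm) rfl
      rw [h4]
      exact simulate_improving hR v e hb0 _ g w (2 ^ k) hw d (by omega)
  refine ⟨big e v g, big_inj e v hg1, AOF_big e v hg2, fun s => Nat.find (run_ends hR (big e v g) s),
    fun s => ⟨Nat.find_spec (run_ends hR (big e v g) s), fun t ht =>
      nonempty_iff_ne_empty.2 (Nat.find_min (run_ends hR (big e v g) s) ht)⟩, ?_⟩
  have hsub : S2 ⊆ univ.filter fun s => 2 ^ k ≤ Nat.find (run_ends hR (big e v g) s) := by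
    intro s hs
    rw [mem_filter]
    refine ⟨mem_univ _, ?_⟩
    by_contra hlt
    push Not at hlt
    have h1 := hslow s hs _ hlt
    rw [Nat.find_spec (run_ends hR (big e v g) s)] at h1
    exact not_nonempty_empty h1
  have hfin := sum_le_sum_of_subset_of_nonneg hsub (f := μ) fun s _ _ => hμ s
  refine le_trans ?_ hfin
  refine le_trans ?_ hp3
  have h5 : (0 : ℝ) ≤ m / M := by positivity
  have h6 : (0 : ℝ) ≤ 1 - b / n := by
    rw [sub_nonneg, div_le_one (by exact_mod_cast hn0)]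
    exact_mod_cast hb
  calc (m : ℝ) / M * (1 - b / n) * (1 - (1 / 2) ^ n)
      ≤ m / M * (1 - b / n) * ∑ s ∈ S0, μ s := mul_le_mul_of_nonneg_left hp1 (mul_nonneg h5 h6)
    _ = m / M * ((1 - b / n) * ∑ s ∈ S0, μ s) := by ring
    _ ≤ _ := mul_le_mul_of_nonneg_left hp2 h5

end Pool.Agent.R531.Sx
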