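import Pool.Agent.R617.SR.Run
import Pool.Agent.R892.JP.Port
set_option autoImplicit false

/-!
# A funnel above a small cube

`e` embeds the coordinates of a small cube; outside its range everything is drawn towards `v`, and
the face on which all these coordinates agree with `v` carries an arbitrary function of the small cube.
-/

namespace Pool.Agent.R531.Sx

open Finset Pool.Agent.TH70.AR

variable {n b : ℕ}

/-- The orientation determines whether there is one local maximum on every face. -/
lemma AOF_congr {f g : (Fin n → Bool) → ℕ} (hf : AOF f)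
    (h : ∀ x i, g x < g (TH70.AR.flip x i) ↔ f x < f (TH70.AR.flip x i)) : AOF g := by
  have h1 : ∀ y i, g (TH70.AR.flip y i) < g y ↔ f (TH70.AR.flip y i) < f y := by
    intro y i
    have := h (TH70.AR.flip y i) i
    rwa [TH70.AR.flip_flip] at this
  intro F x
  obtain ⟨y, ⟨hy1, hy2⟩, hy3⟩ := hf F x
  exact ⟨y, ⟨hy1, fun i hi => (h1 y i).2 (hy2 i hi)⟩,
    fun z hz => hy3 z ⟨hz.1, fun i hi => (h1 z i).1 (hz.2 i hi)⟩⟩

/-- the funnel towards `v` -/
noncomputable def fun0 (v u : Fin n → Bool) : ℕ :=
  agr u v * 2 ^ n + (Fintype.equivFin (Fin n → Bool) u : ℕ)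

lemma idx_lt (u : Fin n → Bool) : (Fintype.equivFin (Fin n → Bool) u : ℕ) < 2 ^ n := by
  have h : Fintype.card (Fin n → Bool) = 2 ^ n := by simp
  exact h ▸ (Fintype.equivFin (Fin n → Bool) u).2

lemma fun0_lt {v u w : Fin n → Bool} (h : agr u v < agr w v) : fun0 v u < fun0 v w := by
  unfold fun0
  have h1 := idx_lt u
  have h2 : (agr u v + 1) * 2 ^ n ≤ agr w v * 2 ^ n := Nat.mul_le_mul_right _ h
  nlinarith

lemma fun0_inj (v : Fin n → Bool) : Function.Injective (fun0 v) := by
  intro u w h
  rcases lt_trichotomy (agr u v) (agr w v) with h' | h' | h'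
  · exact absurd h (fun0_lt h').ne
  · unfold fun0 at h
    rw [h'] at h
    exact (Fintype.equivFin (Fin n → Bool)).injective (Fin.ext (by omega))
  · exact absurd h (fun0_lt h').ne'

lemma fun0_flip {v u : Fin n → Bool} {i : Fin n} : fun0 v u < fun0 v (flip u i) ↔ u i ≠ v i := by
  constructor
  · intro h h1
    exact absurd (fun0_lt (agr_flip_lt h1)) (by omega)
  · intro h
    exact fun0_lt (agr_flip_gt h)

lemma AOF_fun0 (v : Fin n → Bool) : AOF (fun0 v) :=
  AOF_congr (AOF.uniform v) fun x i => by rw [fun0_flip, agr_flip_lt_iff]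

lemma hyp_fun0 (A : Finset (Fin n)) (v : Fin n → Bool) : Hyp (fun0 v) A v :=
  fun _ hu i hi => fun0_lt (agr_flip_lt (hu i hi))

variable (e : Fin b ↪ Fin n) (v : Fin n → Bool)

/-- the coordinates outside the small cube -/
def off : Finset (Fin n) := (univ.map e)ᶜ

lemma mem_off {i : Fin n} : i ∈ off e ↔ ¬ ∃ j, e j = i := by
  simp [off]

/-- the point of the large cube -/
noncomputable def up (y : Fin b → Bool) : Fin n → Bool := Function.extend e y v

lemma up_e (y : Fin b → Bool) (j : Fin b) : up e v y (e j) = y j :=
  e.injective.extend_apply _ _ _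

lemma up_off (y : Fin b → Bool) {i : Fin n} (h : i ∈ off e) : up e v y i = v i :=
  Function.extend_apply' _ _ _ ((mem_off e).1 h)

lemma up_flip (y : Fin b → Bool) (j : Fin b) : flip (up e v y) (e j) = up e v (flip y j) := by
  funext i
  by_cases hi : i ∈ off e
  · rw [up_off e v _ hi, flip_of_ne _ (by rintro rfl; exact (mem_off e).1 hi ⟨j, rfl⟩), up_off e v _ hi]
  · rw [mem_off, not_not] at hi
    obtain ⟨l, rfl⟩ := hi
    rw [up_e]
    by_cases hl : l = j
    · subst hl
      rw [flip_self, flip_self, up_e]
    · rw [flip_of_ne _ (fun h => hl (e.injective h)), flip_of_ne _ hl, up_e]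

lemma up_res {u : Fin n → Bool} (h : On (off e) v u) : up e v (fun j => u (e j)) = u := by
  funext i
  by_cases hi : i ∈ off e
  · rw [up_off e v _ hi, h i hi]
  · rw [mem_off, not_not] at hi
    obtain ⟨l, rfl⟩ := hi
    rw [up_e]

lemma on_up (y : Fin b → Bool) : On (off e) v (up e v y) := fun _ hi => up_off e v y hi

/-- the small function, with the outside coordinates drawn to `v` -/
def inn (g : (Fin b → Bool) → ℕ) (u : Fin n → Bool) : ℕ :=
  g (fun j => u (e j)) + ((off e).filter fun i => u i = v i).card

lemma res_flip_e (u : Fin n → Bool) (j : Fin b) :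
    (fun l => flip u (e j) (e l)) = flip (fun l => u (e l)) j := by
  funext l
  by_cases hl : l = j
  · subst hl; rw [flip_self, flip_self]
  · rw [flip_of_ne _ (fun h => hl (e.injective h)), flip_of_ne _ hl]

lemma res_flip_off (u : Fin n → Bool) {i : Fin n} (hi : i ∈ off e) :
    (fun l => flip u i (e l)) = fun l => u (e l) := by
  funext l
  rw [flip_of_ne]
  rintro rfl
  exact (mem_off e).1 hi ⟨l, rfl⟩

lemma cnt_flip_e (u : Fin n → Bool) (j : Fin b) :
    ((off e).filter fun i => flip u (e j) i = v i) = (off e).filter fun i => u i = v i := by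
  ext i
  simp only [mem_filter]
  refine and_congr_right fun hi => ?_
  rw [flip_of_ne]
  rintro rfl
  exact (mem_off e).1 hi ⟨j, rfl⟩

lemma inn_flip_e (g : (Fin b → Bool) → ℕ) (u : Fin n → Bool) (j : Fin b) :
    inn e v g (flip u (e j)) < inn e v g u ↔ g (flip (fun l => u (e l)) j) < g (fun l => u (e l)) := by
  unfold inn
  rw [res_flip_e, cnt_flip_e]
  omega

lemma inn_flip_off (g : (Fin b → Bool) → ℕ) (u : Fin n → Bool) {i : Fin n} (hi : i ∈ off e) :
    inn e v g (flip u i) < inn e v g u ↔ u i = v i := by
  unfold inn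
  rw [res_flip_off e u hi]
  by_cases h : u i = v i
  · refine iff_of_true ?_ h
    have h1 : ((off e).filter fun l => flip u i l = v l) ⊂ (off e).filter fun l => u l = v l := by
      rw [ssubset_iff_of_subset]
      · refine ⟨i, mem_filter.2 ⟨hi, h⟩, fun h2 => ?_⟩
        have h3 := (mem_filter.1 h2).2
        rw [flip_self, ← h] at h3
        simp at h3
      · intro l hl
        rw [mem_filter] at hl ⊢
        refine ⟨hl.1, ?_⟩
        by_cases hli : l = i
        · rw [hli]; exact h
        · rw [← hl.2, flip_of_ne _ hli]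
    have := card_lt_card h1
    omega
  · refine iff_of_false ?_ h
    have h1 : ((off e).filter fun l => u l = v l) ⊆ (off e).filter fun l => flip u i l = v l := by
      intro l hl
      rw [mem_filter] at hl ⊢
      refine ⟨hl.1, ?_⟩
      rw [flip_of_ne _ (by rintro rfl; exact h hl.2)]
      exact hl.2
    have := card_le_card h1
    omega

lemma AOF_inn {g : (Fin b → Bool) → ℕ} (hg : AOF g) : AOF (inn e v g) := by
  classical
  intro F x
  obtain ⟨y, ⟨hy1, hy2⟩, hy3⟩ := hg (univ.filter fun j => e j ∈ F) (fun j => x (e j))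
  set z : Fin n → Bool := Function.extend e y (fun i => if i ∈ F then v i else x i) with hz
  have hze : ∀ j, z (e j) = y j := fun j => e.injective.extend_apply _ _ _
  have hzo : ∀ i, i ∈ off e → z i = if i ∈ F then v i else x i := fun i hi =>
    Function.extend_apply' _ _ _ ((mem_off e).1 hi)
  have hres : (fun l => z (e l)) = y := funext hze
  refine ⟨z, ⟨fun i hi => ?_, fun i hi => ?_⟩, ?_⟩
  · by_cases h : i ∈ off e
    · rw [hzo i h, if_neg hi]
    · rw [mem_off, not_not] at h
      obtain ⟨j, rfl⟩ := h
      rw [hze]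
      exact hy1 j (by simpa using hi)
  · by_cases h : i ∈ off e
    · rw [inn_flip_off e v g z h, hzo i h, if_pos hi]
    · rw [mem_off, not_not] at h
      obtain ⟨j, rfl⟩ := h
      rw [inn_flip_e, hres]
      exact hy2 j (by simpa using hi)
  · rintro w ⟨hw1, hw2⟩
    have h1 : (fun l => w (e l)) = y := by
      apply hy3
      refine ⟨fun j hj => hw1 _ (by simpa using hj), fun j hj => ?_⟩
      rw [mem_filter] at hj
      exact (inn_flip_e e v g w j).1 (hw2 _ hj.2)
    funext i
    by_cases h : i ∈ off e
    · rw [hzo i h]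
      split_ifs with hi
      · exact (inn_flip_off e v g w h).1 (hw2 i hi)
      · exact hw1 i hi
    · rw [mem_off, not_not] at h
      obtain ⟨j, rfl⟩ := h
      rw [hze, ← h1]

/-- the constant added on the face -/
noncomputable def cst : ℕ := (off e).card + (1 + ∑ x, fun0 v x)

/-- **The composed function.** -/
noncomputable def big (g : (Fin b → Bool) → ℕ) : (Fin n → Bool) → ℕ :=
  stack (On (off e) v) (inn e v g) (fun0 v)

lemma big_off (g : (Fin b → Bool) → ℕ) {u : Fin n → Bool} (h : ¬ On (off e) v u) :
    big e v g u = fun0 v u := stack_neg h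

lemma big_up (g : (Fin b → Bool) → ℕ) (y : Fin b → Bool) :
    big e v g (up e v y) = g y + cst e v := by
  unfold big
  rw [stack_pos (on_up e v y)]
  unfold inn cst
  have h1 : (fun j => up e v y (e j)) = y := funext fun j => up_e e v y j
  have h2 : ((off e).filter fun i => up e v y i = v i) = off e :=
    filter_true_of_mem fun i hi => up_off e v y hi
  rw [h1, h2]
  omega

lemma AOF_big {g : (Fin b → Bool) → ℕ} (hg : AOF g) : AOF (big e v g) :=
  (AOF_fun0 v).stackOn (AOF_inn e v hg) (hyp_fun0 _ v)

lemma big_inj {g : (Fin b → Bool) → ℕ} (hg : Function.Injective g) :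
    Function.Injective (big e v g) := by
  intro u w h
  by_cases hu : On (off e) v u <;> by_cases hw : On (off e) v w
  · rw [← up_res e v hu, ← up_res e v hw, big_up, big_up, Nat.add_right_cancel_iff] at h
    rw [← up_res e v hu, ← up_res e v hw, hg h]
  · exact absurd h (stack_lt hw hu).ne'
  · exact absurd h (stack_lt hu hw).ne
  · rw [big_off e v g hu, big_off e v g hw] at h
    exact fun0_inj v h

lemma improving_fun0 (u : Fin n → Bool) : improving (fun0 v) u = univ.filter fun i => u i ≠ v i := by
  ext i
  simp only [improving, mem_filter, mem_univ, true_and, fun0_flip]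

lemma improving_big_off (g : (Fin b → Bool) → ℕ) {u : Fin n → Bool} (h : ¬ On (off e) v u) :
    improving (big e v g) u = improving (fun0 v) u := by
  ext i
  simp only [improving, mem_filter, mem_univ, true_and]
  by_cases h1 : On (off e) v (flip u i)
  · refine iff_of_true (stack_lt h h1) ?_
    rw [fun0_flip]
    intro h2
    have hi : i ∈ off e := by
      by_contra h3
      exact h (by simpa [TH70.AR.flip_flip] using h1.flip h3)
    have h4 := h1 i hi
    rw [flip_self, ← h2] at h4
    simp at h4
  · rw [big_off e v g h, big_off e v g h1]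

lemma improving_big_up (g : (Fin b → Bool) → ℕ) (y : Fin b → Bool) :
    improving (big e v g) (up e v y) = (improving g y).map e := by
  ext i
  simp only [improving, mem_filter, mem_univ, true_and, mem_map]
  by_cases hi : i ∈ off e
  · refine iff_of_false ?_ ?_
    · have h1 : ¬ On (off e) v (flip (up e v y) i) := by
        intro h2
        have h3 := h2 i hi
        rw [flip_self, up_off e v y hi] at h3
        simp at h3
      have := stack_lt (g := inn e v g) (f := fun0 v) h1 (on_up e v y)
      change ¬ (stack _ _ _ _ < stack _ _ _ _)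
      omega
    · rintro ⟨j, _, rfl⟩
      exact (mem_off e).1 hi ⟨j, rfl⟩
  · rw [mem_off, not_not] at hi
    obtain ⟨j, rfl⟩ := hi
    rw [up_flip, big_up, big_up]
    constructor
    · intro h
      exact ⟨j, by omega, rfl⟩
    · rintro ⟨l, hl, h⟩
      rw [e.injective h] at hl
      omega

end Pool.Agent.R531.Sx
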