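import Pool.Agent.R531.Sx.Lift
set_option autoImplicit false

/-!
# Rules with finite memory: the way through the funnel and the simulation inside
-/

namespace Pool.Agent.R531.Sx

open Finset Pool.Agent.TH70.AR

variable {n b M : ℕ}

/-- A pivot rule with `M` memory states on the `n`-cube: it sees its memory state, the current
vertex, its objective value and its set of improving directions, and names a direction and a new
memory state. -/
abbrev MRule (n M : ℕ) := Fin M → (Fin n → Bool) × ℕ × Finset (Fin n) → Fin n × Fin M

/-- the pair (vertex, memory state) after `t` steps -/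
def mrun (R : MRule n M) (f : (Fin n → Bool) → ℕ) (s : (Fin n → Bool) × Fin M) :
    ℕ → (Fin n → Bool) × Fin M
  | 0 => s
  | t + 1 => (TH70.AR.flip (mrun R f s t).1 (R (mrun R f s t).2 (view f (mrun R f s t).1)).1,
      (R (mrun R f s t).2 (view f (mrun R f s t).1)).2)

lemma mrun_add (R : MRule n M) (f : (Fin n → Bool) → ℕ) (s : (Fin n → Bool) × Fin M) (d t : ℕ) :
    mrun R f s (d + t) = mrun R f (mrun R f s d) t := by
  induction t with
  | zero => rfl
  | succ t ih => rw [← add_assoc, mrun, mrun, ih]

/-- The rule names an improving direction. -/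
def MValid (R : MRule n M) : Prop :=
  ∀ q x c S, S.Nonempty → (R q (x, c, S)).1 ∈ S

/-- the coordinates in which `u` differs from `v` -/
def dis (u v : Fin n → Bool) : Finset (Fin n) := univ.filter fun i => u i ≠ v i

lemma dis_flip {u v : Fin n → Bool} {i : Fin n} (h : i ∈ dis u v) :
    dis (TH70.AR.flip u i) v = (dis u v).erase i := by
  have h0 : u i ≠ v i := by simpa [dis] using h
  ext j
  simp only [dis, mem_filter, mem_univ, true_and, mem_erase]
  rcases eq_or_ne j i with rfl | hj
  · simp only [flip_self, ne_eq, not_true_eq_false, false_and, iff_false, not_not]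
    revert h0
    cases u j <;> cases v j <;> simp
  · simp [flip_of_ne u hj, hj]

lemma dis_eq_empty {u v : Fin n → Bool} : dis u v = ∅ ↔ u = v := by
  rw [dis, filter_eq_empty_iff]
  constructor
  · intro h
    funext i
    by_contra h1
    exact h (mem_univ i) h1
  · rintro rfl i _ h
    exact h rfl

lemma improving_dis (v u : Fin n → Bool) : improving (fun0 v) u = dis u v := improving_fun0 v u

variable {R : MRule n M} (hR : MValid R) (v : Fin n → Bool)

/-- the direction taken in the funnel at time `t` -/
noncomputable def dirn (R : MRule n M) (v : Fin n → Bool) (s : (Fin n → Bool) × Fin M) (t : ℕ) :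
    Fin n :=
  (R (mrun R (fun0 v) s t).2 (view (fun0 v) (mrun R (fun0 v) s t).1)).1

include hR in
lemma funnel_step (s : (Fin n → Bool) × Fin M) (t : ℕ)
    (h : (dis (mrun R (fun0 v) s t).1 v).Nonempty) :
    dirn R v s t ∈ dis (mrun R (fun0 v) s t).1 v ∧
    dis (mrun R (fun0 v) s (t + 1)).1 v = (dis (mrun R (fun0 v) s t).1 v).erase (dirn R v s t) := by
  have h1 : dirn R v s t ∈ dis (mrun R (fun0 v) s t).1 v := by
    have := hR (mrun R (fun0 v) s t).2 (mrun R (fun0 v) s t).1 (fun0 v (mrun R (fun0 v) s t).1)
      (improving (fun0 v) (mrun R (fun0 v) s t).1) (by rw [improving_dis]; exact h)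
    have h2 : dirn R v s t ∈ improving (fun0 v) (mrun R (fun0 v) s t).1 := this
    rwa [improving_dis] at h2
  exact ⟨h1, dis_flip h1⟩

include hR in
lemma funnel_card (s : (Fin n → Bool) × Fin M) (t : ℕ) (ht : t ≤ (dis s.1 v).card) :
    (dis (mrun R (fun0 v) s t).1 v).card + t = (dis s.1 v).card := by
  induction t with
  | zero => rfl
  | succ t ih =>
    have h1 := ih (by omega)
    have h2 : (dis (mrun R (fun0 v) s t).1 v).Nonempty := by
      rw [← card_pos]; omega
    obtain ⟨h3, h4⟩ := funnel_step hR v s t h2
    rw [h4, card_erase_of_mem h3]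
    omega

include hR in
lemma funnel_end (s : (Fin n → Bool) × Fin M) : (mrun R (fun0 v) s (dis s.1 v).card).1 = v := by
  rw [← dis_eq_empty, ← card_eq_zero]
  have := funnel_card hR v s _ le_rfl
  omega

/-- the last direction taken in the funnel -/
noncomputable def lastd (R : MRule n M) (v : Fin n → Bool) (s : (Fin n → Bool) × Fin M) : Fin n :=
  dirn R v s ((dis s.1 v).card - 1)

/-- the memory state on arrival at `v` -/
noncomputable def arr (R : MRule n M) (v : Fin n → Bool) (s : (Fin n → Bool) × Fin M) : Fin M :=
  (mrun R (fun0 v) s (dis s.1 v).card).2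

include hR in
lemma last_mem (s : (Fin n → Bool) × Fin M) (t : ℕ) (ht : t < (dis s.1 v).card) :
    lastd R v s ∈ dis (mrun R (fun0 v) s t).1 v := by
  obtain ⟨d, hd⟩ : ∃ d, (dis s.1 v).card = t + 1 + d := ⟨(dis s.1 v).card - (t + 1), by omega⟩
  induction d generalizing t with
  | zero =>
    have h1 : (dis s.1 v).card - 1 = t := by omega
    have h2 := funnel_card hR v s t ht.le
    rw [lastd, h1]
    exact (funnel_step hR v s t (by rw [← card_pos]; omega)).1
  | succ d ih =>
    have h1 := ih (t + 1) (by omega) (by omega)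
    have h2 := funnel_card hR v s t ht.le
    rw [(funnel_step hR v s t (by rw [← card_pos]; omega)).2] at h1
    exact mem_of_mem_erase h1

variable (e : Fin b ↪ Fin n)

include hR in
/-- As long as the last direction is outside the small cube, the whole function looks like the
funnel. -/
lemma run_big (g : (Fin b → Bool) → ℕ) (s : (Fin n → Bool) × Fin M)
    (hl : lastd R v s ∈ off e) (t : ℕ) (ht : t ≤ (dis s.1 v).card) :
    mrun R (big e v g) s t = mrun R (fun0 v) s t := by
  induction t with
  | zero => rfl
  | succ t ih =>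
    have h1 := ih (by omega)
    have h2 := last_mem hR v s t (by omega)
    have h3 : ¬ On (off e) v (mrun R (fun0 v) s t).1 := by
      intro h
      rw [dis, mem_filter] at h2
      exact h2.2 (h _ hl)
    have h4 : view (big e v g) (mrun R (fun0 v) s t).1 = view (fun0 v) (mrun R (fun0 v) s t).1 := by
      rw [view, view, big_off e v g h3, improving_big_off e v g h3]
    rw [mrun, mrun, h1, h4]

include hR in
lemma improving_way (g : (Fin b → Bool) → ℕ) (s : (Fin n → Bool) × Fin M)
    (hl : lastd R v s ∈ off e) (t : ℕ) (ht : t < (dis s.1 v).card) :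
    (improving (big e v g) (mrun R (big e v g) s t).1).Nonempty := by
  rw [run_big hR v e g s hl t ht.le]
  have h2 := last_mem hR v s t ht
  have h3 : ¬ On (off e) v (mrun R (fun0 v) s t).1 := by
    intro h
    rw [dis, mem_filter] at h2
    exact h2.2 (h _ hl)
  rw [improving_big_off e v g h3, improving_dis]
  exact ⟨_, h2⟩

/-- what is seen in the large cube -/
noncomputable def lv (e : Fin b ↪ Fin n) (v : Fin n → Bool)
    (p : (Fin b → Bool) × ℕ × Finset (Fin b)) : (Fin n → Bool) × ℕ × Finset (Fin n) :=
  (up e v p.1, p.2.1 + cst e v, p.2.2.map e)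

lemma view_up (g : (Fin b → Bool) → ℕ) (y : Fin b → Bool) :
    view (big e v g) (up e v y) = lv e v (view g y) := by
  rw [view, view, lv, big_up, improving_big_up]

/-- the memory state after a past, starting in state `q` -/
noncomputable def st (R : MRule n M) (e : Fin b ↪ Fin n) (v : Fin n → Bool) (q : Fin M) :
    Past b → Fin M
  | [] => q
  | p :: l => (R (st R e v q l) (lv e v p)).2

/-- the rule with full memory on the small cube which simulates the rule `R` started in state `q` -/
noncomputable def sim (R : MRule n M) (e : Fin b ↪ Fin n) (v : Fin n → Bool) (hb : 0 < b)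
    (q : Fin M) : Past b → Fin b
  | [] => ⟨0, hb⟩
  | p :: l =>
    haveI : Nonempty (Fin b) := ⟨⟨0, hb⟩⟩
    Function.invFun e (R (st R e v q l) (lv e v p)).1

include hR in
lemma sim_spec (hb : 0 < b) (q : Fin M) (x : Fin b → Bool) (c : ℕ) (S : Finset (Fin b))
    (l : Past b) (hS : S.Nonempty) :
    sim R e v hb q ((x, c, S) :: l) ∈ S ∧
    e (sim R e v hb q ((x, c, S) :: l)) = (R (st R e v q l) (lv e v (x, c, S))).1 := by
  have h1 := hR (st R e v q l) (up e v x) (c + cst e v) (S.map e) (hS.map)
  rw [mem_map] at h1
  obtain ⟨j, hj, h2⟩ := h1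
  have : Nonempty (Fin b) := ⟨⟨0, hb⟩⟩
  have h3 : sim R e v hb q ((x, c, S) :: l) = j := by
    rw [sim]
    change Function.invFun e (R (st R e v q l) (up e v x, c + cst e v, S.map e)).1 = j
    rw [← h2]
    exact Function.leftInverse_invFun e.injective j
  rw [h3]
  exact ⟨hj, h2⟩

/-- the past before time `t` -/
def before (g : (Fin b → Bool) → ℕ) (w : ℕ → (Fin b → Bool)) : ℕ → Past b
  | 0 => []
  | t + 1 => seen g w t

lemma seen_before (g : (Fin b → Bool) → ℕ) (w : ℕ → (Fin b → Bool)) (t : ℕ) :
    seen g w t = view g (w t) :: before g w t := by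
  cases t <;> rfl

include hR in
/-- **The simulation.** -/
lemma simulate (hb : 0 < b) (q : Fin M) (g : (Fin b → Bool) → ℕ) (w : ℕ → (Fin b → Bool)) (N : ℕ)
    (hw : ∀ t < N, (improving g (w t)).Nonempty ∧
      w (t + 1) = TH70.AR.flip (w t) (sim R e v hb q (seen g w t))) (t : ℕ) (ht : t ≤ N) :
    mrun R (big e v g) (up e v (w 0), q) t = (up e v (w t), st R e v q (before g w t)) := by
  induction t with
  | zero => rfl
  | succ t ih =>
    obtain ⟨h1, h2⟩ := hw t (by omega)
    obtain ⟨h3, h4⟩ := sim_spec hR v e hb q (w t) (g (w t)) (improving g (w t)) (before g w t) h1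
    rw [mrun, ih (by omega)]
    simp only
    rw [view_up]
    have h5 : seen g w t = (w t, g (w t), improving g (w t)) :: before g w t := seen_before g w t
    have h6 : lv e v (view g (w t)) = lv e v (w t, g (w t), improving g (w t)) := rfl
    have h7 : before g w (t + 1) = seen g w t := rfl
    rw [h6, ← h4, up_flip, h7, h2, h5]
    rfl

include hR in
lemma simulate_improving (hb : 0 < b) (q : Fin M) (g : (Fin b → Bool) → ℕ)
    (w : ℕ → (Fin b → Bool)) (N : ℕ)
    (hw : ∀ t < N, (improving g (w t)).Nonempty ∧
      w (t + 1) = TH70.AR.flip (w t) (sim R e v hb q (seen g w t))) (t : ℕ) (ht : t < N) :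
    (improving (big e v g) (mrun R (big e v g) (up e v (w 0), q) t).1).Nonempty := by
  rw [simulate hR v e hb q g w N hw t ht.le]
  simp only
  rw [improving_big_up]
  exact (hw t ht).1.map

end Pool.Agent.R531.Sx
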